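import Pool.Agent.H698.HF.Core
import Pool.Graph.R_seed8.H630VC.Avg4
import Pool.Graph.R_seed8.H630VC.Final3

set_option autoImplicit false

/-! # Vertex cover and circuits with unknown inputs (helper698) -/

open scoped Classical
open Finset

namespace Pool.Agent.H698.UV

open Pool.Agent.H698.HF
open H630VC

/-- the bits of a graph, indexed by the pairs of vertices -/
def adjb {V : Type} (G : SimpleGraph V) (e : V × V) : Prop := G.Adj e.1 e.2

/-- the randomised circuit `l` (a uniformly random member `l ω` of a finite family, with the output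
gate `out ω` and the upper set `acc ω` of values that mean alarm) solves the gap problem for the
graphs in `𝓖`: it raises the alarm if the edges of a graph all of whose vertex covers have at least
`K` vertices are known and nothing is known about the other pairs, and it does not raise the alarm
on the completely known graphs with a vertex cover of at most `k` vertices, each for at least three
quarters of the `ω` -/
def SolvesVC {V D : Type} [PartialOrder D] [Fintype V] (k K : ℝ) (𝓖 : Set (SimpleGraph V))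
    {Ω : Type} [Fintype Ω] (l : Ω → List (Know (V × V) → D)) : Prop :=
  ∃ (out : Ω → Know (V × V) → D) (acc : Ω → Set D), (∀ ω, out ω ∈ l ω) ∧
    (∀ ω, IsUpperSet (acc ω)) ∧
    (∀ G ∈ 𝓖, (∀ C : Finset V, IsCover G C → K ≤ C.card) → 3 * Fintype.card Ω ≤
      4 * (univ.filter fun ω => out ω (truths (adjb G)) ∈ acc ω).card) ∧
    ∀ G ∈ 𝓖, (∃ C : Finset V, IsCover G C ∧ (C.card : ℝ) ≤ k) → 3 * Fintype.card Ω ≤
      4 * (univ.filter fun ω => out ω (full (adjb G)) ∉ acc ω).card

/-- all gates become monotone real gates on the graphs `γ H` -/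
theorem simVC {V D : Type} [PartialOrder D] {n : ℕ} (hD : TreeLike D)
    (γ : SimpleGraph (Fin n) → SimpleGraph V)
    (hγ : ∀ u v : V, (fun H => if (γ H).Adj u v then (1 : ℝ) else 0) ∈ graphInputs (Fin n))
    {l : List (Know (V × V) → D)} (hl : Circ l) (A : Set D) (hA : IsUpperSet A)
    {out : Know (V × V) → D} (hout : out ∈ l) :
    ∃ l' : List (SimpleGraph (Fin n) → ℝ), FProg (graphInputs (Fin n)) l' [] ∧
      l'.length = l.length + 1 ∧
      ∃ F ∈ l', ∀ H, out (truths (adjb (γ H))) ∈ A ↔ 1 ≤ F H :=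
  simulate_out hD (fun H : SimpleGraph (Fin n) => adjb (γ H))
    (fun l' => FProg (graphInputs (Fin n)) l' []) FProg.nil
    (fun l' e hl' => FProg.input hl' (by
      have := hγ e.1 e.2
      unfold adjb
      convert this))
    (fun l' c hl' => FProg.input hl' (Or.inr ⟨c, rfl⟩))
    (fun l' Φ F G hl' hΦ hF hG => FProg.gate hl' hΦ hF hG) hl A hA hout

theorem out_truths {V D : Type} [PartialOrder D] {l : List (Know (V × V) → D)} (hl : Circ l)
    {A : Set D} (hA : IsUpperSet A) {out : Know (V × V) → D} (hout : out ∈ l)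
    {G : SimpleGraph V} (h : out (full (adjb G)) ∉ A) : out (truths (adjb G)) ∉ A :=
  fun h' => h (hA (hl.mono _ hout _ _ (truths_le_full _)) h')

/-- all graphs -/
theorem lower_all (η : ℝ) (hη : 0 < η) (hη2 : η ≤ 1 / 2) :
    ∃ N : ℕ, ∀ n : ℕ, N ≤ n → ∀ k K : ℝ, (n : ℝ) ^ (1 / 2 + η) / 4 ≤ k → K ≤ 7 / 8 * n →
      ∀ (D : Type) [PartialOrder D], TreeLike D →
      ∀ (Ω : Type) [Fintype Ω] [Nonempty Ω] (l : Ω → List (Know (Fin n × Fin n) → D)),
      (∀ ω, Circ (l ω)) → SolvesVC k K Set.univ l →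
      ∃ ω, (2 : ℝ) ^ ((n : ℝ) ^ (η / 4)) ≤ (l ω).length + 1 := by
  obtain ⟨N, hN⟩ := asymp_params (16 * 10 ^ 5) (1 / 2 - η) (η / 4) (η / 4) (by norm_num)
    (by positivity) (by positivity) (by linarith)
  refine ⟨N, fun n hn k K hk hK D _ hD Ω _ _ l hl hs => ?_⟩
  obtain ⟨hn2, L, hL, hY, hsz⟩ := hN n hn
  by_contra hlt
  push Not at hlt
  obtain ⟨out, acc, h1, h2, h3, h4⟩ := hs
  have hsim := fun ω => simVC hD (fun H : SimpleGraph (Fin n) => H)
    (fun u v => Or.inl ⟨u, v, rfl⟩) (hl ω) (acc ω) (h2 ω) (h1 ω)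
  choose l' g1 g2 F g3 g4 using hsim
  have hn0 : (2 : ℝ) ≤ n := by exact_mod_cast hn2
  have hnpos : (0 : ℝ) < n := by linarith
  set ρ : ℝ := (n : ℝ) ^ (1 / 2 - η) with hρdef
  have hρ : 1 ≤ ρ := Real.one_le_rpow (by linarith) (by linarith)
  refine engine2 n L 1 1 ρ hL le_rfl le_rfl hρ ?_ l' (fun _ => []) F g1 g3
    (fun _ => by simp [combos]) ?_ 1 ?_ ?_
  · calc 16 * 10 ^ 5 * (1 * ρ) * (L : ℝ) ^ 3 * ((Nat.log 2 n : ℝ) + 1) * ((1 : ℕ) : ℝ)
        = 16 * 10 ^ 5 * (L : ℝ) ^ 3 * ((Nat.log 2 n : ℝ) + 1) * ρ := by push_cast; ring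
      _ ≤ _ := hY _ (by positivity) le_rfl
  · intro ω
    have h5 := hsz ((l ω).length + 1) (by push_cast; exact hlt ω)
    rw [g2]
    have h6 : wires ([] : List (List ((SimpleGraph (Fin n) → ℝ) × ℝ))) = 0 := rfl
    rw [h6]
    omega
  · intro G A β hA hG
    refine (h3 G (Set.mem_univ _) ?_).trans (Nat.mul_le_mul_left _ (card_le_card ?_))
    · intro C hC
      have hCn := card_cover_classGraph β C (fun u v huv => hC u v (hG huv))
      rw [Fintype.card_fin] at hCn
      have e1 : (n : ℝ) ≤ C.card + (A : ℝ) := by exact_mod_cast hCn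
      rw [mul_one] at hA
      linarith
    · intro ω hω
      rw [mem_filter] at hω ⊢
      exact ⟨hω.1, (g4 ω G).1 hω.2⟩
  · intro T hT
    refine quarter_of_three (h4 (touchGraph T) (Set.mem_univ _) ⟨T, isCover_touchGraph T, ?_⟩) ?_
    · have e1 : (n : ℝ) / (4 * ρ) = (n : ℝ) ^ (1 / 2 + η) / 4 := by
        rw [hρdef, div_mul_eq_div_div_swap]
        congr 1
        rw [div_eq_iff (by positivity), ← Real.rpow_add hnpos]
        norm_num
      rw [e1] at hT
      exact hT.trans hk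
    · intro ω hω hω'
      exact out_truths (hl ω) (h2 ω) (h1 ω) hω ((g4 ω _).2 hω')

/-- graphs with a perfect matching -/
theorem lower_pm (ε : ℝ) (hε0 : 0 < ε) (hε1 : ε ≤ 1) :
    ∃ N : ℕ, ∀ n : ℕ, N ≤ n →
      ∀ (D : Type) [PartialOrder D], TreeLike D →
      ∀ (Ω : Type) [Fintype Ω] [Nonempty Ω]
        (l : Ω → List (Know ((Fin n ⊕ Fin n) × (Fin n ⊕ Fin n)) → D)),
      (∀ ω, Circ (l ω)) → SolvesVC ((1 + ε) * n) ((2 - ε) * n) (pmGraphs n) l →
      ∃ ω, (2 : ℝ) ^ ((n : ℝ) ^ (1 / 7 : ℝ)) ≤ (l ω).length + 1 := by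
  obtain ⟨N, hN⟩ := asymp_params (16 * 10 ^ 5 * (2 / ε * (2 / ε))) 0 (1 / 7)
    (1 / 14) (by positivity) (by norm_num) (by norm_num) (by norm_num)
  refine ⟨N, fun n hn D _ hD Ω _ _ l hl hs => ?_⟩
  obtain ⟨hn2, L, hL, hY, hsz⟩ := hN n hn
  by_contra hlt
  push Not at hlt
  obtain ⟨out, acc, h1, h2, h3, h4⟩ := hs
  have hsim := fun ω => simVC hD (fun H : SimpleGraph (Fin n) => joinGraph H)
    (fun u v => join_inputs _ (Or.inl ⟨u, v, rfl⟩)) (hl ω) (acc ω) (h2 ω) (h1 ω)
  choose l' g1 g2 F g3 g4 using hsim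
  have hn0 : (2 : ℝ) ≤ n := by exact_mod_cast hn2
  have hnpos : (0 : ℝ) < n := by linarith
  have hρ : (1 : ℝ) ≤ 2 / ε := by
    rw [le_div_iff₀ hε0]; linarith
  have hεn : 0 < ε * n := by positivity
  refine engine2 n L 1 (2 / ε) (2 / ε) hL le_rfl hρ hρ ?_ l' (fun _ => []) F g1 g3
    (fun _ => by simp [combos]) ?_ 1 ?_ ?_
  · have h7 := hY 1 zero_le_one (by rw [Real.rpow_zero])
    push_cast
    linarith
  · intro ω
    have h5 := hsz ((l ω).length + 1) (by push_cast; exact hlt ω)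
    rw [g2]
    have h6 : wires ([] : List (List ((SimpleGraph (Fin n) → ℝ) × ℝ))) = 0 := rfl
    rw [h6]
    omega
  · intro G A β hA hG
    refine (h3 _ (joinGraph_mem G) ?_).trans (Nat.mul_le_mul_left _ (card_le_card ?_))
    · intro C hC
      have hA1 : 1 ≤ A := by
        have := (β ⟨0, by omega⟩).pos
        omega
      have hCn := card_cover_joinGraph G A hA1 (fun C' hC' => by
        have := card_cover_classGraph β C' (fun u v huv => hC' u v (hG huv))
        rwa [Fintype.card_fin] at this) C hC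
      have e1 : (2 * n : ℝ) ≤ C.card + (A : ℝ) := by exact_mod_cast hCn
      have e3 : (A : ℝ) ≤ ε * n / 16 := by
        calc (A : ℝ) ≤ n / (8 * (2 / ε)) := hA
          _ = ε * n / 16 := by field_simp; ring
      linarith
    · intro ω hω
      rw [mem_filter] at hω ⊢
      exact ⟨hω.1, (g4 ω G).1 hω.2⟩
  · intro T hT
    refine quarter_of_three (h4 _ (joinGraph_mem (touchGraph T))
      ⟨_, isCover_joinGraph _ T (isCover_touchGraph T), ?_⟩) ?_
    · have e3 : (T.card : ℝ) ≤ ε * n / 8 := by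
        calc (T.card : ℝ) ≤ n / (4 * (2 / ε)) := hT
          _ = ε * n / 8 := by field_simp; ring
      rw [card_disjSum, card_univ, Fintype.card_fin]
      push_cast
      linarith
    · intro ω hω hω'
      exact out_truths (hl ω) (h2 ω) (h1 ω) hω ((g4 ω _).2 hω')

end Pool.Agent.H698.UV
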