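import Pool.Agent.H698.UV.Low

set_option autoImplicit false

/-! # Vertex cover and circuits with unknown inputs: upper bounds (helper698) -/

open scoped Classical
open Finset

namespace Pool.Agent.H698.UV

open Pool.Agent.H698.HF
open H630VC

/-- circuits of monotone real gates are circuits over the real numbers -/
theorem toCirc {V : Type} {l : List (SimpleGraph V → ℝ)} (hl : Prog (graphInputs V) l) :
    ∃ l' : List (Know (V × V) → ℝ), Circ l' ∧ l'.length = l.length ∧
      ∀ f ∈ l, ∃ f' ∈ l', ∀ G, f' (truths (adjb G)) = f G ∧ f' (full (adjb G)) = f G := by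
  induction hl with
  | nil => exact ⟨[], Circ.nil, rfl, fun f hf => absurd hf (by simp)⟩
  | @input l f _ hf ih =>
    obtain ⟨l', h1, h2, h3⟩ := ih
    rcases hf with ⟨u, v, rfl⟩ | ⟨c, rfl⟩
    · refine ⟨_, Circ.input (u, v) (fun b => if b = some true then 1 else 0) h1 ?_, ?_, ?_⟩
      · intro b
        rw [if_neg (by simp)]
        split_ifs <;> norm_num
      · simp [h2]
      · intro g hg
        rcases List.mem_cons.1 hg with rfl | hg
        · refine ⟨_, List.mem_cons_self, fun G => ?_⟩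
          unfold truths full edgeBit adjb
          by_cases h : G.Adj u v <;> simp [h]
        · obtain ⟨f', h4, h5⟩ := h3 g hg
          exact ⟨f', List.mem_cons_of_mem _ h4, h5⟩
    · refine ⟨_, Circ.const c h1, by simp [h2], ?_⟩
      intro g hg
      rcases List.mem_cons.1 hg with rfl | hg
      · exact ⟨_, List.mem_cons_self, fun G => ⟨rfl, rfl⟩⟩
      · obtain ⟨f', h4, h5⟩ := h3 g hg
        exact ⟨f', List.mem_cons_of_mem _ h4, h5⟩
  | @gate l φ f g _ hφ hf hg ih =>
    obtain ⟨l', h1, h2, h3⟩ := ih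
    obtain ⟨f', a1, a2⟩ := h3 f hf
    obtain ⟨g', b1, b2⟩ := h3 g hg
    refine ⟨_, Circ.gate h1 hφ a1 b1, by simp [h2], ?_⟩
    intro x hx
    rcases List.mem_cons.1 hx with rfl | hx
    · refine ⟨_, List.mem_cons_self, fun G => ?_⟩
      dsimp only
      rw [(a2 G).1, (a2 G).2, (b2 G).1, (b2 G).2]
      exact ⟨rfl, rfl⟩
    · obtain ⟨x', h4, h5⟩ := h3 x hx
      exact ⟨x', List.mem_cons_of_mem _ h4, h5⟩

theorem upper_all (n : ℕ) (hn : 2 ≤ n) :
    ∃ l : List (Know (Fin n × Fin n) → ℝ), Circ l ∧ l.length ≤ n ^ 12 ∧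
      ∀ k K : ℝ, 0 ≤ k → 16 * Real.sqrt (n * Real.log n) * k < K →
        SolvesVC k K Set.univ (fun _ : Unit => l) := by
  obtain ⟨l, f, h1, h2, h3, h4⟩ := upper_bound n hn
  obtain ⟨l', g1, g2, g3⟩ := toCirc h1
  obtain ⟨f', hf', hf⟩ := g3 f h2
  refine ⟨l', g1, by rw [g2]; exact h3, fun k K hk hkK => ?_⟩
  set ρ : ℝ := 16 * Real.sqrt (n * Real.log n) with hρ
  refine ⟨fun _ => f', fun _ => {x | ρ * k < x}, fun _ => hf', ?_, ?_, ?_⟩
  · intro _ x y hxy hx
    exact lt_of_lt_of_le (show ρ * k < x from hx) hxy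
  · intro G _ hG
    have h : ρ * k < f' (truths (adjb G)) := by
      rw [(hf G).1]
      obtain ⟨C, hC, hCf⟩ := (h4 G).1
      have := hG C hC
      linarith
    have e : (univ.filter fun _ : Unit => f' (truths (adjb G)) ∈ {x | ρ * k < x}) = univ :=
      filter_true_of_mem (fun _ _ => h)
    show 3 * Fintype.card Unit ≤
      4 * (univ.filter fun _ : Unit => f' (truths (adjb G)) ∈ {x | ρ * k < x}).card
    rw [e, card_univ]
    omega
  · rintro G _ ⟨C, hC, hCk⟩
    have h : ¬ ρ * k < f' (full (adjb G)) := by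
      rw [(hf G).2]
      push Not
      have h5 := (h4 G).2 C hC
      have h6 : (0 : ℝ) ≤ ρ := by positivity
      calc f G ≤ ρ * C.card := h5
        _ ≤ ρ * k := by gcongr
    have e : (univ.filter fun _ : Unit => f' (full (adjb G)) ∉ {x | ρ * k < x}) = univ :=
      filter_true_of_mem (fun _ _ => h)
    show 3 * Fintype.card Unit ≤
      4 * (univ.filter fun _ : Unit => f' (full (adjb G)) ∉ {x | ρ * k < x}).card
    rw [e, card_univ]
    omega

/-- on the graphs with a perfect matching the ratio two is free -/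
theorem pm_range (n : ℕ) (G : SimpleGraph (Fin n ⊕ Fin n)) (hG : G ∈ pmGraphs n) :
    (∀ C : Finset (Fin n ⊕ Fin n), IsCover G C → n ≤ C.card) ∧
      ∃ C : Finset (Fin n ⊕ Fin n), IsCover G C ∧ C.card = 2 * n := by
  refine ⟨fun C hC => ?_, univ, fun u v _ => Or.inl (mem_univ _), ?_⟩
  · have h1 : (univ : Finset (Fin n)) ⊆ C.toLeft ∪ C.toRight := by
      intro i _
      rcases hC _ _ (hG i) with h | h
      · exact mem_union_left _ (by simpa using h)
      · exact mem_union_right _ (by simpa using h)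
    have h2 := (card_le_card h1).trans (card_union_le _ _)
    rw [card_univ, Fintype.card_fin, card_toLeft_add_card_toRight] at h2
    exact h2
  · rw [card_univ, Fintype.card_sum, Fintype.card_fin]
    ring

/-- some function that respects the knowledge solves the gap problem -/
theorem exists_ideal {V : Type} [Fintype V] (k K : ℝ) (hkK : k < K) :
    ∃ F : Know (V × V) → ℝ, (∀ P Q, Le P Q → F P ≤ F Q) ∧ ∀ G : SimpleGraph V,
      ((∀ C : Finset V, IsCover G C → K ≤ C.card) → F (truths (adjb G)) = 1) ∧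
      ((∃ C : Finset V, IsCover G C ∧ (C.card : ℝ) ≤ k) → F (full (adjb G)) = 0) := by
  refine ⟨fun P => if ∃ C : Finset V, (∀ e : V × V, P e = some true → e.1 ∈ C ∨ e.2 ∈ C) ∧
    (C.card : ℝ) < K then 0 else 1, fun P Q hPQ => ?_, fun G => ⟨fun hG => ?_, ?_⟩⟩
  · by_cases hQ : ∃ C : Finset V, (∀ e : V × V, Q e = some true → e.1 ∈ C ∨ e.2 ∈ C) ∧
      (C.card : ℝ) < K
    · have hP : ∃ C : Finset V, (∀ e : V × V, P e = some true → e.1 ∈ C ∨ e.2 ∈ C) ∧
          (C.card : ℝ) < K := by
        obtain ⟨C, h, hC⟩ := hQ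
        refine ⟨C, fun e he => h e ?_, hC⟩
        rcases hPQ e with h2 | h2
        · rw [h2] at he; exact absurd he (by simp)
        · rw [← h2]; exact he
      simp only [hP, hQ, if_true, le_refl]
    · simp only [hQ, if_false]
      split_ifs <;> norm_num
  · dsimp only
    rw [if_neg]
    rintro ⟨C, h, hC⟩
    refine absurd (hG C fun u v huv => h (u, v) ?_) (not_le.2 hC)
    unfold truths adjb
    simp [huv]
  · rintro ⟨C, hC, hCk⟩
    dsimp only
    rw [if_pos]
    refine ⟨C, fun e he => hC e.1 e.2 ?_, lt_of_le_of_lt hCk hkK⟩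
    unfold full adjb at he
    simpa using he

end Pool.Agent.H698.UV
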